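import Pool.Agent.L0h31.KQ.Defs2
import Pool.Agent.L0h79.KQ.Slice

/-! KQ module `S_GBN`: the operator norm of a block diagonal Gaussian matrix. -/

set_option autoImplicit false

namespace Pool.Agent.L0h82.KQ

open MeasureTheory
open scoped ENNReal InnerProductSpace ComplexOrder
open Pool.Agent.L0h31.KQ

section blocks

variable {ι κ : Type} [Fintype ι] [DecidableEq ι] [Fintype κ] [DecidableEq κ]

/-- the block `b` as a linear map of the entries -/
noncomputable def blk (f : ι → κ) (b : κ) :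
    ({z : ι × ι // f z.1 = f z.2} → ℂ) →ₗ[ℂ] Matrix {k // f k = b} {k // f k = b} ℂ where
  toFun g := fun i j =>
    g ⟨(i.1, j.1), i.2.trans j.2.symm⟩ / (Real.sqrt (Fintype.card {k // f k = b}) : ℝ)
  map_add' g h := by
    ext i j
    exact add_div _ _ _
  map_smul' c g := by
    ext i j
    exact mul_div_assoc _ _ _

theorem blk_apply (f : ι → κ) (b : κ) (g : {z : ι × ι // f z.1 = f z.2} → ℂ)
    (i j : {k // f k = b}) : blk f b g i j =
      g ⟨(i.1, j.1), i.2.trans j.2.symm⟩ / (Real.sqrt (Fintype.card {k // f k = b}) : ℝ) := rfl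

/-- the operator of the block `b` -/
noncomputable def Hb (f : ι → κ) (b : κ) (g : {z : ι × ι // f z.1 = f z.2} → ℂ) :
    EuclideanSpace ℂ {k // f k = b} →L[ℝ] EuclideanSpace ℂ {k // f k = b} :=
  (Matrix.toEuclideanCLM (n := {k // f k = b}) (𝕜 := ℂ) (blk f b g)).restrictScalars ℝ

theorem Hb_apply (f : ι → κ) (b : κ) (g : {z : ι × ι // f z.1 = f z.2} → ℂ)
    (x : EuclideanSpace ℂ {k // f k = b}) (i : {k // f k = b}) :
    (Hb f b g x) i = ∑ j, blk f b g i j * x j := by
  have h := congrFun (Matrix.ofLp_toEuclideanCLM (blk f b g) x) i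
  exact h

theorem cont_Hb (f : ι → κ) (b : κ) : Continuous (Hb f b) := by
  let L : ({z : ι × ι // f z.1 = f z.2} → ℂ) →ₗ[ℝ]
      (EuclideanSpace ℂ {k // f k = b} →L[ℝ] EuclideanSpace ℂ {k // f k = b}) :=
    { toFun := Hb f b
      map_add' := by
        intro g h
        ext x i
        rw [Hb_apply]
        change _ = (Hb f b g x) i + (Hb f b h x) i
        rw [Hb_apply, Hb_apply, ← Finset.sum_add_distrib]
        refine Finset.sum_congr rfl fun j _ => ?_
        rw [map_add, Matrix.add_apply, add_mul]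
      map_smul' := by
        intro c g
        ext x i
        rw [Hb_apply]
        change _ = c • (Hb f b g x) i
        rw [Hb_apply, Finset.smul_sum]
        refine Finset.sum_congr rfl fun j _ => ?_
        have : c • g = (c : ℂ) • g := by
          ext z
          simp
        rw [this, map_smul, Matrix.smul_apply, smul_eq_mul, Complex.real_smul, mul_assoc] }
  exact L.continuous_of_finiteDimensional

theorem finrank_block (f : ι → κ) (b : κ) :
    Module.finrank ℝ (EuclideanSpace ℂ {k // f k = b}) = 2 * Fintype.card {k // f k = b} := by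
  rw [LinearEquiv.finrank_eq (WithLp.linearEquiv 2 ℝ ({k // f k = b} → ℂ)),
    Module.finrank_pi_fintype]
  simp [Complex.finrank_real_complex, mul_comm]

/-- the coefficients of a matrix element -/
noncomputable def lc (f : ι → κ) (b : κ) (t : ℝ) (x y : EuclideanSpace ℂ {k // f k = b})
    (z : {z : ι × ι // f z.1 = f z.2}) : ℂ :=
  if h : f z.1.1 = b then
    (t / (Real.sqrt (Fintype.card {k // f k = b}) : ℝ) : ℂ) *
      (star (x ⟨z.1.2, z.2.symm.trans h⟩) * y ⟨z.1.1, h⟩) else 0

/-- the entries of the block -/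
def eb (f : ι → κ) (b : κ) (p : {k // f k = b} × {k // f k = b}) :
    {z : ι × ι // f z.1 = f z.2} := ⟨(p.1.1, p.2.1), p.1.2.trans p.2.2.symm⟩

theorem eb_inj (f : ι → κ) (b : κ) : Function.Injective (eb f b) := by
  rintro ⟨⟨i, hi⟩, ⟨j, hj⟩⟩ ⟨⟨i', hi'⟩, ⟨j', hj'⟩⟩ h
  simp only [eb, Subtype.mk.injEq, Prod.mk.injEq] at h
  simp [h.1, h.2]

theorem lc_eb (f : ι → κ) (b : κ) (t : ℝ) (x y : EuclideanSpace ℂ {k // f k = b})
    (p : {k // f k = b} × {k // f k = b}) : lc f b t x y (eb f b p) =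
      (t / (Real.sqrt (Fintype.card {k // f k = b}) : ℝ) : ℂ) * (star (x p.2) * y p.1) := by
  unfold lc eb
  rw [dif_pos p.1.2]

theorem lc_zero (f : ι → κ) (b : κ) (t : ℝ) (x y : EuclideanSpace ℂ {k // f k = b})
    (z : {z : ι × ι // f z.1 = f z.2}) (hz : z ∉ Set.range (eb f b)) : lc f b t x y z = 0 := by
  unfold lc
  split_ifs with h
  · exact absurd ⟨(⟨z.1.1, h⟩, ⟨z.1.2, z.2.symm.trans h⟩), rfl⟩ hz
  · rfl

theorem inner_eq (f : ι → κ) (b : κ) (t : ℝ) (g : {z : ι × ι // f z.1 = f z.2} → ℂ)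
    (x y : EuclideanSpace ℂ {k // f k = b}) :
    t * ⟪Hb f b g x, y⟫_ℝ = ∑ z, (star (lc f b t x y z) * g z).re := by
  rw [← Fintype.sum_of_injective (eb f b) (eb_inj f b)
    (fun p => (star (lc f b t x y (eb f b p)) * g (eb f b p)).re)
    (fun z => (star (lc f b t x y z) * g z).re)
    (fun z hz => by rw [lc_zero f b t x y z hz]; simp) (fun _ => rfl)]
  rw [PiLp.inner_apply, Fintype.sum_prod_type, Finset.mul_sum]
  refine Finset.sum_congr rfl fun i _ => ?_
  rw [Hb_apply]
  have h1 : ∀ z w : ℂ, ⟪z, w⟫_ℝ = (z * star w).re := by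
    intro z w
    rw [Complex.inner]
    simp [Complex.mul_re]
    ring
  rw [h1, Finset.sum_mul, Complex.re_sum, Finset.mul_sum]
  refine Finset.sum_congr rfl fun j _ => ?_
  rw [lc_eb, blk_apply]
  have h2 : star ((t / (Real.sqrt (Fintype.card {k // f k = b}) : ℝ) : ℂ) * (star (x j) * y i)) *
      g (eb f b (i, j)) = ((t : ℝ) : ℂ) * (g ⟨(i.1, j.1), i.2.trans j.2.symm⟩ /
        (Real.sqrt (Fintype.card {k // f k = b}) : ℝ) * x j * star (y i)) := by
    rw [star_mul', star_mul', star_star]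
    have h3 : star (t / (Real.sqrt (Fintype.card {k // f k = b}) : ℝ) : ℂ) =
        (t / (Real.sqrt (Fintype.card {k // f k = b}) : ℝ) : ℂ) := by
      rw [← Complex.ofReal_div]
      exact Complex.conj_ofReal _
    rw [h3]
    change (t : ℂ) / _ * _ * g ⟨(i.1, j.1), i.2.trans j.2.symm⟩ = _
    ring
  rw [h2, Complex.re_ofReal_mul]

theorem norm_lc (f : ι → κ) (b : κ) (t : ℝ) (x y : EuclideanSpace ℂ {k // f k = b}) :
    ∑ z, ‖lc f b t x y z‖ ^ 2 =
      t ^ 2 / (Fintype.card {k // f k = b}) * (‖x‖ ^ 2 * ‖y‖ ^ 2) := by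
  rw [← Fintype.sum_of_injective (eb f b) (eb_inj f b)
    (fun p => ‖lc f b t x y (eb f b p)‖ ^ 2) (fun z => ‖lc f b t x y z‖ ^ 2)
    (fun z hz => by rw [lc_zero f b t x y z hz]; simp) (fun _ => rfl)]
  rw [EuclideanSpace.norm_sq_eq, EuclideanSpace.norm_sq_eq, Finset.sum_mul_sum,
    Finset.mul_sum, Fintype.sum_prod_type, Finset.sum_comm]
  refine Finset.sum_congr rfl fun j _ => ?_
  rw [Finset.mul_sum]
  refine Finset.sum_congr rfl fun i _ => ?_
  rw [lc_eb, norm_mul, norm_mul, norm_star, mul_pow, mul_pow]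
  congr 1
  rw [← Complex.ofReal_div, Complex.norm_real, Real.norm_eq_abs, sq_abs, div_pow,
    Real.sq_sqrt (Nat.cast_nonneg _)]

/-- the exponential moment of a block -/
theorem exp_block (h1 : S_GAU1) (h2 : S_GAU2) (f : ι → κ) (b : κ) {t : ℝ} (ht : 0 ≤ t)
    (hN : 0 < Fintype.card {k // f k = b}) :
    ∫⁻ g, ENNReal.ofReal (Real.exp (t * ‖Hb f b g‖ / 2)) ∂(gau {z : ι × ι // f z.1 = f z.2}) ≤
      ENNReal.ofReal (8 ^ (4 * Fintype.card {k // f k = b}) *
        Real.exp (1 / (4 * Fintype.card {k // f k = b}) * t ^ 2)) := by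
  have hprob := h1 {z : ι × ι // f z.1 = f z.2}
  have hN' : (0 : ℝ) < Fintype.card {k // f k = b} := by exact_mod_cast hN
  have key := Pool.Agent.L0h79.KQ.slice ({z : ι × ι // f z.1 = f z.2} → ℂ)
    (EuclideanSpace ℂ {k // f k = b}) (EuclideanSpace ℂ {k // f k = b})
    (gau {z : ι × ι // f z.1 = f z.2}) (Hb f b)
    (fun x y => (((cont_Hb f b).clm_apply continuous_const).inner continuous_const).measurable)
    (1 / (4 * Fintype.card {k // f k = b})) t ht (by
      intro x y hx hy
      have e1 : (fun g => ENNReal.ofReal (Real.exp (t * ⟪Hb f b g x, y⟫_ℝ))) =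
          fun g => ENNReal.ofReal (Real.exp (∑ z, (star (lc f b t x y z) * g z).re)) := by
        funext g
        rw [inner_eq]
      rw [e1, h2]
      refine ENNReal.ofReal_le_ofReal (Real.exp_le_exp.2 ?_)
      rw [norm_lc]
      have h3 : ‖x‖ ^ 2 * ‖y‖ ^ 2 ≤ 1 := by
        have a1 : ‖x‖ ^ 2 ≤ 1 := pow_le_one₀ (norm_nonneg _) hx
        have a2 : ‖y‖ ^ 2 ≤ 1 := pow_le_one₀ (norm_nonneg _) hy
        nlinarith [sq_nonneg ‖x‖, sq_nonneg ‖y‖]
      have h4 : 0 ≤ t ^ 2 / (Fintype.card {k // f k = b} : ℝ) := by positivity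
      calc t ^ 2 / (Fintype.card {k // f k = b} : ℝ) * (‖x‖ ^ 2 * ‖y‖ ^ 2) / 4
          ≤ t ^ 2 / (Fintype.card {k // f k = b} : ℝ) * 1 / 4 := by
            have := mul_le_mul_of_nonneg_left h3 h4
            linarith
        _ = 1 / (4 * (Fintype.card {k // f k = b} : ℝ)) * t ^ 2 := by
            field_simp)
  rw [finrank_block, ← two_mul, ← mul_assoc] at key
  exact key

/-- the operator norm of a block diagonal matrix -/
theorem opnm_le (f : ι → κ) (g : {z : ι × ι // f z.1 = f z.2} → ℂ) {S : ℝ} (hS : 0 ≤ S)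
    (h : ∀ b ∈ Finset.univ.image f, ‖Hb f b g‖ ^ 2 ≤ S) : opnm (bmat f g) ^ 2 ≤ S := by
  have h1 : opnm (bmat f g) ≤ Real.sqrt S := by
    unfold opnm
    refine ContinuousLinearMap.opNorm_le_bound _ (Real.sqrt_nonneg _) fun u => ?_
    refine le_of_sq_le_sq ?_ (by positivity)
    rw [mul_pow, Real.sq_sqrt hS, EuclideanSpace.norm_sq_eq, EuclideanSpace.norm_sq_eq,
      ← Fintype.sum_fiberwise f, ← Fintype.sum_fiberwise f (fun i => ‖u.ofLp i‖ ^ 2),
      Finset.mul_sum]
    refine Finset.sum_le_sum fun b _ => ?_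
    -- the block `b`
    let ub : EuclideanSpace ℂ {k // f k = b} := WithLp.toLp 2 fun k => u.ofLp k.1
    have e1 : ∀ i : {k // f k = b},
        ((Matrix.toEuclideanCLM (n := ι) (𝕜 := ℂ) (bmat f g)) u).ofLp i.1 = (Hb f b g ub) i := by
      intro i
      rw [Matrix.ofLp_toEuclideanCLM, Hb_apply]
      change ∑ j, bmat f g i.1 j * u.ofLp j = _
      rw [← Fintype.sum_fiberwise f, Finset.sum_eq_single b]
      · refine Finset.sum_congr rfl fun j _ => ?_
        rw [blk_apply]
        unfold bmat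
        rw [dif_pos (i.2.trans j.2.symm)]
        have e2 : Fintype.card {k // f k = f i.1} = Fintype.card {k // f k = b} := by
          rw [i.2]
        rw [e2]
      · intro b' _ hb'
        refine Finset.sum_eq_zero fun j _ => ?_
        unfold bmat
        rw [dif_neg, zero_mul]
        intro h
        exact hb' (j.2.symm.trans (h.symm.trans i.2))
      · intro h
        exact absurd (Finset.mem_univ _) h
    have e3 : ∑ i : {k // f k = b},
        ‖((Matrix.toEuclideanCLM (n := ι) (𝕜 := ℂ) (bmat f g)) u).ofLp i.1‖ ^ 2 =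
        ‖Hb f b g ub‖ ^ 2 := by
      rw [EuclideanSpace.norm_sq_eq]
      exact Finset.sum_congr rfl fun i _ => by rw [e1 i]
    have e4 : ∑ i : {k // f k = b}, ‖u.ofLp i.1‖ ^ 2 = ‖ub‖ ^ 2 := by
      rw [EuclideanSpace.norm_sq_eq]
    rw [e3, e4]
    by_cases hb : b ∈ Finset.univ.image f
    · calc ‖Hb f b g ub‖ ^ 2 ≤ (‖Hb f b g‖ * ‖ub‖) ^ 2 :=
            pow_le_pow_left₀ (norm_nonneg _) (ContinuousLinearMap.le_opNorm _ _) 2
        _ = ‖Hb f b g‖ ^ 2 * ‖ub‖ ^ 2 := by ring
        _ ≤ S * ‖ub‖ ^ 2 := mul_le_mul_of_nonneg_right (h b hb) (by positivity)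
    · have hemp : IsEmpty {k // f k = b} := by
        refine ⟨fun k => hb ?_⟩
        rw [← k.2]
        exact Finset.mem_image_of_mem f (Finset.mem_univ _)
      have : ‖Hb f b g ub‖ ^ 2 = 0 := by
        rw [EuclideanSpace.norm_sq_eq]
        exact Finset.sum_of_isEmpty _
      rw [this]
      positivity
  calc opnm (bmat f g) ^ 2 ≤ Real.sqrt S ^ 2 :=
        pow_le_pow_left₀ (norm_nonneg _) h1 2
    _ = S := Real.sq_sqrt hS

end blocks

theorem num_ineq {N : ℕ} (hN : 1 ≤ N) {A y : ℝ} (hA : 1 ≤ A) :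
    y ^ 2 ≤ A ^ 2 + 12 * Real.exp (N * A / 2 * (y - A)) ∨ y < 0 := by
  rcases lt_or_ge y 0 with hy | hy
  · exact Or.inr hy
  left
  have hN' : (1 : ℝ) ≤ N := by exact_mod_cast hN
  rcases le_or_gt y A with h | h
  · have h1 : y ^ 2 ≤ A ^ 2 := pow_le_pow_left₀ hy h 2
    have h2 := Real.exp_pos (N * A / 2 * (y - A))
    linarith
  · set s := y - A with hs
    have hs0 : 0 < s := by rw [hs]; linarith
    set q : ℝ := N * A / 2 * s with hq
    have hq0 : 0 < q := by positivity
    have h1 : q ^ 2 / 2 ≤ Real.exp q := by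
      have := Real.quadratic_le_exp_of_nonneg hq0.le
      linarith
    have h2 : q ≤ Real.exp q := by
      have := Real.add_one_le_exp q
      linarith
    have h3 : y ^ 2 = A ^ 2 + s ^ 2 + 2 * A * s := by
      have : y = A + s := by rw [hs]; ring
      rw [this]; ring
    rw [h3]
    have hNA : A ≤ N * A := by nlinarith
    have h4 : 2 * A * s ≤ 4 * q := by
      rw [hq]
      nlinarith
    have h5 : s ^ 2 ≤ 4 * q ^ 2 := by
      have h6 : s ≤ 2 * q := by
        rw [hq]
        have : 1 ≤ N * A := by linarith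
        nlinarith
      nlinarith
    linarith

/-- the operator norm of a block diagonal Gaussian matrix -/
theorem gbn (h1 : S_GAU1) (h2 : S_GAU2) : S_GBN := by
  refine ⟨50, by norm_num, ?_⟩
  intro ι κ _ _ _ _ f T hT hsum
  have hprob := h1 {z : ι × ι // f z.1 = f z.2}
  set μ := gau {z : ι × ι // f z.1 = f z.2} with hμ
  have hlog8 : Real.log 8 ≤ 2.1 := by
    have : Real.log 8 = 3 * Real.log 2 := by
      rw [show (8 : ℝ) = 2 ^ 3 by norm_num, Real.log_pow]
      norm_num
    rw [this]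
    have := Real.log_two_lt_d9
    linarith
  have hlog8' : 1 ≤ Real.log 8 := by
    have : Real.log 8 = 3 * Real.log 2 := by
      rw [show (8 : ℝ) = 2 ^ 3 by norm_num, Real.log_pow]
      norm_num
    rw [this]
    have := Real.log_two_gt_d9
    linarith
  set A : ℝ := Real.sqrt (16 * Real.log 8 + 4 * T) with hA
  have hA2 : A ^ 2 = 16 * Real.log 8 + 4 * T := Real.sq_sqrt (by positivity)
  have hA1 : 1 ≤ A := by
    rw [hA]
    refine Real.one_le_sqrt.2 ?_
    linarith
  have hA0 : 0 < A := by linarith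
  have hNb : ∀ b ∈ Finset.univ.image f, 1 ≤ Fintype.card {k // f k = b} := by
    intro b hb
    obtain ⟨i, _, hi⟩ := Finset.mem_image.1 hb
    have : Nonempty {k // f k = b} := ⟨⟨i, hi⟩⟩
    exact Fintype.card_pos
  -- the pointwise bound
  have hpt : ∀ g, opnm (bmat f g) ^ 2 ≤ A ^ 2 + ∑ b ∈ Finset.univ.image f,
      12 * Real.exp (-(Fintype.card {k // f k = b} * A ^ 2 / 2)) *
        Real.exp (Fintype.card {k // f k = b} * A * ‖Hb f b g‖ / 2) := by
    intro g
    refine opnm_le f g (by positivity) fun b hb => ?_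
    rcases num_ineq (hNb b hb) (y := ‖Hb f b g‖) hA1 with h | h
    · refine h.trans (add_le_add le_rfl ?_)
      have e1 : 12 * Real.exp (Fintype.card {k // f k = b} * A / 2 * (‖Hb f b g‖ - A)) =
          12 * Real.exp (-(Fintype.card {k // f k = b} * A ^ 2 / 2)) *
            Real.exp (Fintype.card {k // f k = b} * A * ‖Hb f b g‖ / 2) := by
        rw [mul_assoc, ← Real.exp_add]
        congr 2
        ring
      rw [e1]
      exact Finset.single_le_sum (f := fun b => 12 * Real.exp
        (-(Fintype.card {k // f k = b} * A ^ 2 / 2)) *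
          Real.exp (Fintype.card {k // f k = b} * A * ‖Hb f b g‖ / 2))
        (fun b _ => by positivity) hb
    · exact absurd (norm_nonneg _) (not_le.2 h)
  refine (lintegral_mono fun g => ENNReal.ofReal_le_ofReal (hpt g)).trans ?_
  have hmeas : ∀ b ∈ Finset.univ.image f, Measurable fun g => ENNReal.ofReal
      (12 * Real.exp (-(Fintype.card {k // f k = b} * A ^ 2 / 2)) *
        Real.exp (Fintype.card {k // f k = b} * A * ‖Hb f b g‖ / 2)) := by
    intro b _
    refine (Continuous.measurable ?_).ennreal_ofReal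
    have := (cont_Hb f b).norm
    fun_prop
  have e2 : ∀ g, ENNReal.ofReal (A ^ 2 + ∑ b ∈ Finset.univ.image f,
      12 * Real.exp (-(Fintype.card {k // f k = b} * A ^ 2 / 2)) *
        Real.exp (Fintype.card {k // f k = b} * A * ‖Hb f b g‖ / 2)) =
      ENNReal.ofReal (A ^ 2) + ∑ b ∈ Finset.univ.image f, ENNReal.ofReal
      (12 * Real.exp (-(Fintype.card {k // f k = b} * A ^ 2 / 2)) *
        Real.exp (Fintype.card {k // f k = b} * A * ‖Hb f b g‖ / 2)) := by
    intro g
    rw [ENNReal.ofReal_add (by positivity) (Finset.sum_nonneg fun b _ => by positivity),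
      ENNReal.ofReal_sum_of_nonneg fun b _ => by positivity]
  rw [lintegral_congr e2, lintegral_add_left measurable_const, lintegral_const,
    measure_univ, mul_one, lintegral_finsetSum _ hmeas]
  have e3 : ∀ b ∈ Finset.univ.image f, ∫⁻ g, ENNReal.ofReal
      (12 * Real.exp (-(Fintype.card {k // f k = b} * A ^ 2 / 2)) *
        Real.exp (Fintype.card {k // f k = b} * A * ‖Hb f b g‖ / 2)) ∂μ ≤
      ENNReal.ofReal (12 * Real.exp (-(T * Fintype.card {k // f k = b}))) := by
    intro b hb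
    have hN1 := hNb b hb
    set N := Fintype.card {k // f k = b} with hN
    have hN1' : (1 : ℝ) ≤ N := by exact_mod_cast hN1
    have e4 : ∀ g, ENNReal.ofReal (12 * Real.exp (-((N : ℝ) * A ^ 2 / 2)) *
        Real.exp ((N : ℝ) * A * ‖Hb f b g‖ / 2)) =
        ENNReal.ofReal (12 * Real.exp (-((N : ℝ) * A ^ 2 / 2))) *
          ENNReal.ofReal (Real.exp ((N : ℝ) * A * ‖Hb f b g‖ / 2)) := by
      intro g
      rw [ENNReal.ofReal_mul (by positivity)]
    rw [lintegral_congr e4, lintegral_const_mul' _ _ ENNReal.ofReal_ne_top]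
    have key := exp_block h1 h2 f b (t := (N : ℝ) * A) (by positivity) (by omega)
    refine (mul_le_mul_right key _).trans ?_
    rw [← ENNReal.ofReal_mul (by positivity)]
    refine ENNReal.ofReal_le_ofReal (le_of_eq ?_)
    rw [← hN]
    have e5 : (8 : ℝ) ^ (4 * N) = Real.exp (4 * N * Real.log 8) := by
      rw [← Real.rpow_natCast, Real.rpow_def_of_pos (by norm_num)]
      congr 1
      push_cast
      ring
    rw [e5, mul_assoc, ← Real.exp_add, ← Real.exp_add]
    congr 2
    have e6 : 1 / (4 * (N : ℝ)) * ((N : ℝ) * A) ^ 2 = N * A ^ 2 / 4 := by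
      field_simp
    rw [e6, hA2]
    ring
  refine (add_le_add le_rfl (Finset.sum_le_sum e3)).trans ?_
  rw [← ENNReal.ofReal_sum_of_nonneg fun b _ => by positivity, ← Finset.mul_sum,
    ← ENNReal.ofReal_add (by positivity) (mul_nonneg (by norm_num)
      (Finset.sum_nonneg fun b _ => (Real.exp_pos _).le))]
  refine ENNReal.ofReal_le_ofReal ?_
  rw [hA2]
  linarith

end Pool.Agent.L0h82.KQ
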